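import Pool.Agent.R222.VI.Dic

/-!
# Energies with an additive volumetric-isochoric split under a bound for the distortion

The energies are defined for the matrices whose linear distortion lies in a relatively open
interval `I` of `[1, ∞)` starting at `1` and whose determinant lies in an open interval `J` of
`(0, ∞)`.
-/

set_option autoImplicit false

namespace Pool.Agent.U124.VI

open MeasureTheory Set Filter Topology
open Pool.Agent.R222.VI

/-- a relatively open interval of `[1, ∞)` which contains `1` -/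
structure IK (I : Set ℝ) : Prop where
  one : (1 : ℝ) ∈ I
  ge : ∀ K ∈ I, 1 ≤ K
  down : ∀ K ∈ I, ∀ K', 1 ≤ K' → K' ≤ K → K' ∈ I
  up : ∀ K ∈ I, ∃ K' ∈ I, K < K'

/-- an open interval of `(0, ∞)`, not empty -/
structure OJ (J : Set ℝ) : Prop where
  op : IsOpen J
  oc : J.OrdConnected
  pos : ∀ z ∈ J, 0 < z
  ne : J.Nonempty

/-- the domain -/
def Gd (I J : Set ℝ) (F : ℂ × ℂ) : Prop := Pos F ∧ Rt F ∈ I ∧ Dt F ∈ J

/-- rank-one convexity on the domain -/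
def RC (I J : Set ℝ) (w : ℂ × ℂ → ℝ) : Prop := ∀ F H : ℂ × ℂ, ‖H.1‖ = ‖H.2‖ → Gd I J F →
  Gd I J (F + H) → ∀ t : ℝ, 0 ≤ t → t ≤ 1 → w (F + t • H) ≤ (1 - t) * w F + t * w (F + H)

variable {I J : Set ℝ}

theorem IK.conv (hI : IK I) : Convex ℝ I := by
  refine (OrdConnected.convex ⟨fun x hx y hy z hz => ?_⟩)
  exact hI.down y hy z ((hI.ge x hx).trans hz.1) hz.2

theorem OJ.conv (hJ : OJ J) : Convex ℝ J := hJ.oc.convex

theorem IK.pos {K : ℝ} (hI : IK I) (h : K ∈ I) : 0 < K := by linarith [hI.ge K h]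

theorem ik_univ : IK (Ici 1) where
  one := mem_Ici.2 le_rfl
  ge := fun _ h => h
  down := fun _ _ _ h _ => h
  up := fun K hK => ⟨K + 1, by simp only [mem_Ici] at *; linarith, by linarith⟩

theorem oj_univ : OJ (Ioi 0) where
  op := isOpen_Ioi
  oc := ordConnected_Ioi
  pos := fun _ h => h
  ne := ⟨1, mem_Ioi.2 one_pos⟩

/-- the ratio along a segment in a rank-one direction -/
theorem rt_seg (F H : ℂ × ℂ) (hH : ‖H.1‖ = ‖H.2‖) (h0 : Pos F) (h1 : Pos (F + H)) {κ : ℝ}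
    (k0 : Rt F ≤ κ) (k1 : Rt (F + H) ≤ κ) {t : ℝ} (ht0 : 0 ≤ t) (ht1 : t ≤ 1) :
    Pos (F + t • H) ∧ Rt (F + t • H) ≤ κ := by
  have hκ : 1 ≤ κ := (Rt_ge h0).trans k0
  have hD : ∀ t : ℝ, 0 ≤ t → t ≤ 1 → Pos (F + t • H) := by
    intro t h2 h3
    rw [Dt_pos, Dt_line F H hH]
    rw [Dt_pos] at h0 h1
    rcases eq_or_lt_of_le h2 with h | h
    · rw [← h]; linarith
    · have := mul_pos h h1
      have := mul_nonneg (sub_nonneg.2 h3) h0.le
      linarith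
  refine ⟨hD t ht0 ht1, ?_⟩
  -- the criterion
  have crit : ∀ G : ℂ × ℂ, Pos G → (Rt G ≤ κ ↔
      2 * κ * (‖G.1‖ ^ 2 + ‖G.2‖ ^ 2) ≤ (κ ^ 2 + 1) * Dt G) := by
    intro G hG
    have hG' : ‖G.2‖ < ‖G.1‖ := hG
    have hv : 0 < ‖G.1‖ - ‖G.2‖ := by linarith
    have n2 := norm_nonneg G.2
    unfold Rt Dt
    rw [div_le_iff₀ hv]
    have e : (κ ^ 2 + 1) * (‖G.1‖ ^ 2 - ‖G.2‖ ^ 2) - 2 * κ * (‖G.1‖ ^ 2 + ‖G.2‖ ^ 2)
        = (κ * (‖G.1‖ - ‖G.2‖) - (‖G.1‖ + ‖G.2‖)) * (κ * (‖G.1‖ + ‖G.2‖) - (‖G.1‖ - ‖G.2‖)) := by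
      ring
    have hp : 0 < κ * (‖G.1‖ + ‖G.2‖) - (‖G.1‖ - ‖G.2‖) ∨
        (κ * (‖G.1‖ + ‖G.2‖) - (‖G.1‖ - ‖G.2‖) = 0 ∧ κ = 1 ∧ ‖G.2‖ = 0) := by
      have h1 : ‖G.1‖ + ‖G.2‖ ≤ κ * (‖G.1‖ + ‖G.2‖) := by nlinarith
      rcases eq_or_lt_of_le n2 with h2 | h2
      · rcases eq_or_lt_of_le hκ with h3 | h3
        · right
          refine ⟨?_, h3.symm, h2.symm⟩
          rw [← h3, ← h2]; ring
        · left
          nlinarith
      · left; linarith
    rcases hp with hp | ⟨hp, h3, h4⟩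
    · constructor
      · intro h
        have := mul_nonneg (sub_nonneg.2 h) hp.le
        linarith
      · intro h
        have h5 : 0 ≤ (κ * (‖G.1‖ - ‖G.2‖) - (‖G.1‖ + ‖G.2‖))
            * (κ * (‖G.1‖ + ‖G.2‖) - (‖G.1‖ - ‖G.2‖)) := by rw [← e]; linarith
        have := nonneg_of_mul_nonneg_left h5 hp
        linarith
    · rw [h3, h4]
      constructor <;> intro _ <;> nlinarith
  rw [crit _ (hD t ht0 ht1)]
  rw [crit _ h0] at k0
  rw [crit _ h1] at k1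
  -- convexity of the squares of the norms
  have sq_conv : ∀ a b : ℂ, ‖a + t • b‖ ^ 2 ≤ (1 - t) * ‖a‖ ^ 2 + t * ‖a + b‖ ^ 2 := by
    intro a b
    simp only [← Complex.normSq_eq_norm_sq, Complex.normSq_apply]
    simp only [Complex.add_re, Complex.add_im, Complex.real_smul, Complex.mul_re, Complex.mul_im,
      Complex.ofReal_re, Complex.ofReal_im, zero_mul, sub_zero, add_zero]
    have h1 : 0 ≤ t * (1 - t) * (b.re ^ 2 + b.im ^ 2) := by
      have := mul_nonneg ht0 (sub_nonneg.2 ht1)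
      positivity
    nlinarith
  have s1 := sq_conv F.1 H.1
  have s2 := sq_conv F.2 H.2
  have hd := Dt_line F H hH t
  have e1 : (F + t • H).1 = F.1 + t • H.1 := rfl
  have e2 : (F + t • H).2 = F.2 + t • H.2 := rfl
  have e3 : (F + H).1 = F.1 + H.1 := rfl
  have e4 : (F + H).2 = F.2 + H.2 := rfl
  rw [e1, e2, hd]
  rw [e3, e4] at k1
  have h6 : 2 * κ * (‖F.1 + t • H.1‖ ^ 2 + ‖F.2 + t • H.2‖ ^ 2)
      ≤ 2 * κ * (((1 - t) * ‖F.1‖ ^ 2 + t * ‖F.1 + H.1‖ ^ 2)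
        + ((1 - t) * ‖F.2‖ ^ 2 + t * ‖F.2 + H.2‖ ^ 2)) :=
    mul_le_mul_of_nonneg_left (add_le_add s1 s2) (by linarith)
  have h7 := mul_le_mul_of_nonneg_left k0 (sub_nonneg.2 ht1)
  have h8 := mul_le_mul_of_nonneg_left k1 ht0
  linarith

theorem gd_seg (hI : IK I) (hJ : OJ J) {F H : ℂ × ℂ} (hH : ‖H.1‖ = ‖H.2‖) (h0 : Gd I J F)
    (h1 : Gd I J (F + H)) {t : ℝ} (ht0 : 0 ≤ t) (ht1 : t ≤ 1) : Gd I J (F + t • H) := by
  obtain ⟨κ, hκ, hF, hFH⟩ : ∃ κ ∈ I, Rt F ≤ κ ∧ Rt (F + H) ≤ κ := by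
    rcases le_total (Rt F) (Rt (F + H)) with h | h
    · exact ⟨_, h1.2.1, h, le_rfl⟩
    · exact ⟨_, h0.2.1, le_rfl, h⟩
  obtain ⟨h2, h3⟩ := rt_seg F H hH h0.1 h1.1 hF hFH ht0 ht1
  refine ⟨h2, hI.down κ hκ _ (Rt_ge h2) h3, ?_⟩
  rw [Dt_line F H hH]
  exact hJ.conv h0.2.2 h1.2.2 (sub_nonneg.2 ht1) ht0 (by ring)

theorem conv_line {w : ℂ × ℂ → ℝ} (hR : RC I J w) (F H : ℂ × ℂ) (hH : ‖H.1‖ = ‖H.2‖) {S : Set ℝ}
    (hS : Convex ℝ S) (hp : ∀ t ∈ S, Gd I J (F + t • H)) :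
    ConvexOn ℝ S (fun t => w (F + t • H)) := by
  refine ⟨hS, fun x hx y hy p q hp' hq hpq => ?_⟩
  have hy' : F + x • H + (y - x) • H = F + y • H := by
    rw [add_assoc, ← add_smul]; congr 2; ring
  have hH' : ‖((y - x) • H).1‖ = ‖((y - x) • H).2‖ := by
    simp only [Prod.smul_fst, Prod.smul_snd, norm_smul, hH]
  have h := hR (F + x • H) ((y - x) • H) hH' (hp x hx) (by rw [hy']; exact hp y hy) q hq
    (by linarith)
  rw [hy'] at h
  have e : F + x • H + q • (y - x) • H = F + (p • x + q • y) • H := by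
    rw [add_assoc, smul_smul, ← add_smul]
    congr 2
    simp only [smul_eq_mul]
    have : p = 1 - q := by linarith
    subst this
    ring
  rw [e] at h
  have : p = 1 - q := by linarith
  subst this
  simpa only [smul_eq_mul] using h

/-! ### the shear line -/

/-- the base point and the direction -/
noncomputable def sF : ℂ × ℂ := (((1 : ℝ) : ℂ), ((0 : ℝ) : ℂ))

noncomputable def sH : ℂ × ℂ := ((Complex.I, Complex.I) : ℂ × ℂ)

noncomputable def tk (k : ℝ) : ℝ := (Real.sqrt k - (Real.sqrt k)⁻¹) / 2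

theorem sD (t : ℝ) : Dt (sF + t • sH) = 1 := by
  unfold sF sH
  rw [shear_Dt]; norm_num

theorem sP (t : ℝ) : Pos (sF + t • sH) := by
  rw [Dt_pos, sD]; norm_num

theorem sR {k : ℝ} (hk : 1 ≤ k) : Rt (sF + tk k • sH) = k := (shear_Rt hk).2

theorem sRn (t : ℝ) : Rt (sF + (-t) • sH) = Rt (sF + t • sH) := by
  unfold Rt sF sH
  rw [(shear_norm 1 0 _).1, (shear_norm 1 0 _).2, (shear_norm 1 0 _).1, (shear_norm 1 0 _).2,
      neg_sq]

theorem sdir (t : ℝ) : ‖(t • sH).1‖ = ‖(t • sH).2‖ := rfl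

theorem sRle {k t : ℝ} (hk : 1 ≤ k) (h0 : -(tk k) ≤ t) (h1 : t ≤ tk k) (h2 : 0 < tk k) :
    Rt (sF + t • sH) ≤ k := by
  have e1 : sF + (-(tk k)) • sH + (2 * tk k) • sH = sF + tk k • sH := by
    rw [add_assoc, ← add_smul]; congr 2; ring
  have h := (rt_seg (sF + (-(tk k)) • sH) ((2 * tk k) • sH) rfl (sP _) (by rw [e1]; exact sP _)
    (κ := k) (by rw [sRn, sR hk]) (by rw [e1, sR hk]) (t := (t + tk k) / (2 * tk k))
    (div_nonneg (by linarith) (by linarith)) (by rw [div_le_one (by linarith)]; linarith)).2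
  have e2 : sF + (-(tk k)) • sH + ((t + tk k) / (2 * tk k)) • (2 * tk k) • sH = sF + t • sH := by
    rw [smul_smul, add_assoc, ← add_smul]; congr 2
    field_simp
    ring
  rwa [e2] at h

theorem tk_mono {k l : ℝ} (hk : 1 ≤ k) (h : k ≤ l) : tk k ≤ tk l := by
  unfold tk
  have h1 : 1 ≤ Real.sqrt k := by rw [Real.one_le_sqrt]; exact hk
  have h2 : Real.sqrt k ≤ Real.sqrt l := Real.sqrt_le_sqrt h
  have h3 : (Real.sqrt l)⁻¹ ≤ (Real.sqrt k)⁻¹ := inv_anti₀ (by linarith) h2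
  linarith

theorem tk_lt {k l : ℝ} (hk : 1 ≤ k) (h : k < l) : tk k < tk l := by
  unfold tk
  have h1 : 1 ≤ Real.sqrt k := by rw [Real.one_le_sqrt]; exact hk
  have h2 : Real.sqrt k < Real.sqrt l := Real.sqrt_lt_sqrt (by linarith) h
  have h3 : (Real.sqrt l)⁻¹ ≤ (Real.sqrt k)⁻¹ := inv_anti₀ (by linarith) h2.le
  linarith

theorem tk_one : tk 1 = 0 := by unfold tk; simp

theorem tk_nonneg {k : ℝ} (hk : 1 ≤ k) : 0 ≤ tk k := by
  rw [← tk_one]; exact tk_mono le_rfl hk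

theorem tk_cont : ContinuousOn tk (Ici 1) := by
  unfold tk
  apply ContinuousOn.div_const
  apply ContinuousOn.sub (Real.continuous_sqrt.continuousOn)
  apply ContinuousOn.inv₀ (Real.continuous_sqrt.continuousOn)
  intro k hk
  have hk' : (1 : ℝ) ≤ k := hk
  exact (Real.sqrt_pos.2 (by linarith)).ne'

variable {h f : ℝ → ℝ}

/-- the energy on the shear line with determinant `z` -/
theorem shear_val {z : ℝ} (hz : 0 < z) (t : ℝ) :
    Rt (Real.sqrt z • sF + t • Real.sqrt z • sH) = Rt (sF + t • sH) ∧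
    Dt (Real.sqrt z • sF + t • Real.sqrt z • sH) = z ∧
    Pos (Real.sqrt z • sF + t • Real.sqrt z • sH) := by
  have hs : 0 < Real.sqrt z := Real.sqrt_pos.2 hz
  have e : Real.sqrt z • sF + t • Real.sqrt z • sH = Real.sqrt z • (sF + t • sH) := by
    rw [smul_add, smul_comm]
  rw [e]
  refine ⟨Rt_smul hs _, ?_, Pos_smul hs (sP t)⟩
  rw [Dt_smul, sD, Real.sq_sqrt hz.le, mul_one]

theorem shear_conv (hI : IK I) (hR : RC I J (wv h f)) {z k : ℝ} (hz0 : 0 < z)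
    (hz : z ∈ J) (hk : k ∈ I) (hk1 : 1 < k) :
    ConvexOn ℝ (Icc (-(tk k)) (tk k)) (fun t : ℝ => h (Rt (sF + t • sH)) + f z) := by
  have htk : 0 < tk k := by rw [← tk_one]; exact tk_lt le_rfl hk1
  have h1 := conv_line hR (Real.sqrt z • sF) (Real.sqrt z • sH) rfl
    (convex_Icc (-(tk k)) (tk k)) fun t ht => by
      obtain ⟨e1, e2, e3⟩ := shear_val hz0 t
      refine ⟨e3, ?_, by rw [e2]; exact hz⟩
      rw [e1]
      exact hI.down k hk _ (Rt_ge (sP t)) (sRle hk1.le ht.1 ht.2 htk)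
  refine h1.congr fun t _ => ?_
  obtain ⟨e1, e2, e3⟩ := shear_val hz0 t
  simp only [wv]
  rw [e1, e2]

/-- `h` is continuous -/
theorem cont_h (hI : IK I) (hJ : OJ J) (hR : RC I J (wv h f)) : ContinuousOn h I := by
  obtain ⟨z, hz⟩ := hJ.ne
  intro k hk
  obtain ⟨l, hl, hkl⟩ := hI.up k hk
  have hk1 := hI.ge k hk
  have hc := shear_conv hI hR (hJ.pos z hz) hz hl (by linarith)
  have hc2 : ContinuousOn (fun t : ℝ => h (Rt (sF + t • sH)) + f z) (Ioo (-(tk l)) (tk l)) :=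
    (hc.subset Ioo_subset_Icc_self (convex_Ioo _ _)).continuousOn isOpen_Ioo
  have hmem : ∀ x ∈ Ico 1 l, tk x ∈ Ioo (-(tk l)) (tk l) := fun x hx =>
    ⟨by linarith [tk_nonneg hx.1, tk_lt hx.1 hx.2], tk_lt hx.1 hx.2⟩
  have h1 : ContinuousOn (fun x : ℝ => h (Rt (sF + tk x • sH)) + f z - f z) (Ico 1 l) :=
    (hc2.comp (tk_cont.mono fun x hx => hx.1) hmem).sub continuousOn_const
  have h2 : ContinuousOn h (Ico 1 l) := h1.congr fun x hx => by
    simp only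
    rw [sR hx.1]; ring
  have h3 := h2 k ⟨hk1, hkl⟩
  refine h3.mono_of_mem_nhdsWithin ?_
  have h4 : Iio l ∈ 𝓝[I] k := mem_nhdsWithin_of_mem_nhds (Iio_mem_nhds hkl)
  filter_upwards [h4, self_mem_nhdsWithin] with x hx1 hx2
  exact ⟨hI.ge x hx2, hx1⟩

/-- `h` is nondecreasing -/
theorem mono_h (hI : IK I) (hJ : OJ J) (hR : RC I J (wv h f)) : MonotoneOn h I := by
  obtain ⟨z, hz⟩ := hJ.ne
  intro k hk l hl hkl
  have hk1 := hI.ge k hk
  rcases eq_or_lt_of_le hkl with h0 | h0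
  · rw [h0]
  have hc := shear_conv hI hR (hJ.pos z hz) hz hl (by linarith)
  have htl : 0 < tk l := (tk_nonneg hk1).trans_lt (tk_lt hk1 h0)
  have htk := tk_nonneg hk1
  have htkl := tk_lt hk1 h0
  have h1 := hc.2 (x := -(tk l)) (y := tk l) ⟨le_rfl, by linarith⟩ ⟨by linarith, le_rfl⟩
    (show 0 ≤ (tk l - tk k) / (2 * tk l) by apply div_nonneg <;> linarith)
    (show 0 ≤ (tk l + tk k) / (2 * tk l) by apply div_nonneg <;> linarith)
    (by field_simp; ring)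
  have e : ((tk l - tk k) / (2 * tk l)) • (-(tk l)) + ((tk l + tk k) / (2 * tk l)) • (tk l)
      = tk k := by
    simp only [smul_eq_mul]; field_simp; ring
  rw [e] at h1
  simp only [smul_eq_mul] at h1
  rw [sRn, sR hk1, sR (hI.ge l hl)] at h1
  have e2 : (tk l - tk k) / (2 * tk l) * (h l + f z) + (tk l + tk k) / (2 * tk l) * (h l + f z)
      = h l + f z := by
    field_simp; ring
  linarith

/-! ### the diagonal line -/

/-- convexity in the largest singular value -/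
theorem diag_conv {w : ℂ × ℂ → ℝ} (hR : RC I J w) {v : ℝ} (hv : 0 < v) {S : Set ℝ}
    (hS : Convex ℝ S) (hSv : ∀ s ∈ S, v ≤ s ∧ s / v ∈ I ∧ s * v ∈ J) :
    ConvexOn ℝ S (fun s : ℝ => w ((((s + v) / 2 : ℝ) : ℂ), (((s - v) / 2 : ℝ) : ℂ))) := by
  have e : ∀ s : ℝ, (((((s + v) / 2 : ℝ) : ℂ), (((s - v) / 2 : ℝ) : ℂ)) : ℂ × ℂ)
      = (((v / 2 : ℝ) : ℂ), ((-(v / 2) : ℝ) : ℂ)) + s • (((1 / 2 : ℝ) : ℂ), ((1 / 2 : ℝ) : ℂ)) := by
    intro s
    apply Prod.ext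
    · simp only [Prod.fst_add, Prod.smul_fst, Complex.real_smul]
      push_cast
      ring
    · simp only [Prod.snd_add, Prod.smul_snd, Complex.real_smul]
      push_cast
      ring
  simp only [e]
  refine conv_line hR _ _ rfl hS fun s hs => ?_
  rw [← e]
  obtain ⟨h1, h2, h3⟩ := hSv s hs
  obtain ⟨d1, d2, d3⟩ := diag_val hv h1
  exact ⟨d1, by rw [d2]; exact h2, by rw [d3]; exact h3⟩

/-- `f` is continuous -/
theorem cont_f (hI : IK I) (hJ : OJ J) (hR : RC I J (wv h f)) : ContinuousOn f J := by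
  intro z hz
  have hz0 : 0 < z := hJ.pos z hz
  obtain ⟨K, hK, hK1⟩ := hI.up 1 hI.one
  obtain ⟨K2, hK2, hK12⟩ := hI.up K hK
  -- the smaller singular value
  set v : ℝ := Real.sqrt (z / K) with hv
  have hK0 : 0 < K := by linarith
  have hv0 : 0 < v := Real.sqrt_pos.2 (div_pos hz0 hK0)
  have hv2 : v ^ 2 = z / K := Real.sq_sqrt (div_pos hz0 hK0).le
  have hvK : v ^ 2 * K = z := by rw [hv2]; field_simp
  set S : Set ℝ := Ioo v (v * K2) ∩ (fun s : ℝ => s * v) ⁻¹' J with hS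
  have hSo : IsOpen S := isOpen_Ioo.inter (hJ.op.preimage (by fun_prop))
  have hSc : Convex ℝ S := by
    refine (convex_Ioo _ _).inter ?_
    have : (fun s : ℝ => s * v) ⁻¹' J = (LinearMap.mulRight ℝ v) ⁻¹' J := rfl
    rw [this]
    exact hJ.conv.linear_preimage _
  have hSv : ∀ s ∈ S, v ≤ s ∧ s / v ∈ I ∧ s * v ∈ J := by
    intro s hs
    refine ⟨hs.1.1.le, hI.down K2 hK2 _ ?_ ?_, hs.2⟩
    · rw [le_div_iff₀ hv0]; linarith [hs.1.1]
    · rw [div_le_iff₀ hv0]; linarith [hs.1.2]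
  have hzS : z / v ∈ S := by
    have e1 : z / v = v * K := by rw [div_eq_iff hv0.ne']; rw [← hvK]; ring
    refine ⟨⟨?_, ?_⟩, ?_⟩
    · rw [e1]; nlinarith
    · rw [e1]; nlinarith
    · change z / v * v ∈ J
      rw [div_mul_cancel₀ _ hv0.ne']; exact hz
  have h1 := diag_conv hR hv0 hSc hSv
  have h2 : ContinuousAt (fun s : ℝ => wv h f ((((s + v) / 2 : ℝ) : ℂ),
      (((s - v) / 2 : ℝ) : ℂ))) (z / v) :=
    (h1.continuousOn hSo).continuousAt (hSo.mem_nhds hzS)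
  have h3 : ContinuousAt (fun y : ℝ => y / v) z := by fun_prop
  have h4 : ContinuousAt (fun y : ℝ => wv h f (((((y / v) + v) / 2 : ℝ) : ℂ),
      ((((y / v) - v) / 2 : ℝ) : ℂ))) z := ContinuousAt.comp (g := fun s : ℝ => wv h f
        ((((s + v) / 2 : ℝ) : ℂ), (((s - v) / 2 : ℝ) : ℂ))) h2 h3
  have hpre : ∀ᶠ y in 𝓝 z, y / v ∈ S := h3.eventually (hSo.mem_nhds hzS)
  have h5 : ContinuousAt (fun y : ℝ => h (y / v ^ 2)) z := by
    have h6 : z / v ^ 2 = K := by rw [hv2]; field_simp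
    have h7 : ContinuousAt h K := by
      refine (cont_h hI hJ hR).continuousAt ?_
      filter_upwards [Ioo_mem_nhds hK1 hK12] with x hx
      exact hI.down K2 hK2 x hx.1.le hx.2.le
    have h8 : ContinuousAt h (z / v ^ 2) := by rw [h6]; exact h7
    exact ContinuousAt.comp (g := h) (f := fun y : ℝ => y / v ^ 2) h8 (by fun_prop)
  have h8 : ContinuousAt f z := by
    refine (h4.sub h5).congr ?_
    filter_upwards [hpre] with y hy
    have hy2 : v ≤ y / v := (hSv _ hy).1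
    have hd := diag_val hv0 hy2
    simp only [wv, Pi.sub_apply]
    rw [hd.2.1, hd.2.2, div_div, ← sq, div_mul_cancel₀ _ hv0.ne']
    ring
  exact h8.continuousWithinAt

end Pool.Agent.U124.VI
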