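import Pool.Agent.U124.VI.Nin
import Pool.Agent.R222.VI.Fin

/-! # The theorem for matrices, with a bound for the distortion -/

set_option autoImplicit false

namespace Pool.Agent.U124.VI

open MeasureTheory Set Filter Topology
open Pool.Agent.R222.VI (Dt Rt wv Pos Dt_pos Rt_ge Dt_smul Rt_smul Pos_smul Dt_line gf_sv wv_sv
  main_dat W_eq2)
open Pool.Agent.Y273.VI (Dat Tm T_meas det_cab det_bac det_line rank_bac)
open Pool.Agent.W360.MQ (cab)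
open Pool.Agent.TH937.ZC (gf bac_add bac_smul)
open Pool.Agent.TH937.TF (bac cab_bac)
open Pool.Agent.W523.MQ.OM (T)

variable {I J : Set ℝ}

theorem gd_open (hI : IK I) (hJ : OJ J) : IsOpen {F : ℂ × ℂ | Gd I J F} := by
  rw [isOpen_iff_mem_nhds]
  rintro F ⟨h1, h2, h3⟩
  have h1' : ‖F.2‖ < ‖F.1‖ := h1
  obtain ⟨K, hK, hFK⟩ := hI.up _ h2
  have o1 : ∀ᶠ G : ℂ × ℂ in 𝓝 F, Pos G :=
    (isOpen_lt (by fun_prop) (by fun_prop) : IsOpen {G : ℂ × ℂ | ‖G.2‖ < ‖G.1‖}).mem_nhds h1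
  have c1 : ContinuousAt Rt F := by
    unfold Rt
    apply ContinuousAt.div
    · exact Continuous.continuousAt (by fun_prop)
    · exact Continuous.continuousAt (by fun_prop)
    · linarith
  have c2 : ContinuousAt Dt F := by
    unfold Dt
    exact Continuous.continuousAt (by fun_prop)
  have o2 : ∀ᶠ G : ℂ × ℂ in 𝓝 F, Rt G < K := c1.eventually (gt_mem_nhds hFK)
  have o3 : ∀ᶠ G : ℂ × ℂ in 𝓝 F, Dt G ∈ J := c2.eventually (hJ.op.mem_nhds h3)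
  filter_upwards [o1, o2, o3] with G g1 g2 g3
  exact ⟨g1, hI.down K hK _ (Rt_ge g1) g2.le, g3⟩

/-- the theorem in complex notation -/
theorem main_c (hI : IK I) (hJ : OJ J) {h f : ℝ → ℝ} (hR : RC I J (wv h f))
    {F₀ : Matrix (Fin 2) (Fin 2) ℝ}
    {Ω : Set (Fin 2 → ℝ)} {ϑ : (Fin 2 → ℝ) → (Fin 2 → ℝ)} (ht : Tm Ω ϑ)
    (hF : Gd I J (cab F₀))
    (hpos : ∀ᵐ x ∂(volume.restrict Ω), Gd I J (T F₀ (fderiv ℝ ϑ x)))
    (hfin : ∫⁻ x in Ω, ENNReal.ofReal (wv h f (T F₀ (fderiv ℝ ϑ x))) ≠ ⊤) :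
    IntegrableOn (fun x => wv h f (T F₀ (fderiv ℝ ϑ x))) Ω ∧
      wv h f (cab F₀) * (volume Ω).toReal ≤ ∫ x in Ω, wv h f (T F₀ (fderiv ℝ ϑ x)) := by
  obtain ⟨c, hk, hRc⟩ := split hI hJ hR
  set v0 : ℝ := ‖(cab F₀).1‖ - ‖(cab F₀).2‖ with hv0
  set s0 : ℝ := ‖(cab F₀).1‖ + ‖(cab F₀).2‖ with hs0
  have hFp : ‖(cab F₀).2‖ < ‖(cab F₀).1‖ := hF.1
  have hv0p : 0 < v0 := by rw [hv0]; linarith
  have hvs : v0 ≤ s0 := by rw [hv0, hs0]; linarith [norm_nonneg (cab F₀).2]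
  have hs0p : 0 < s0 := by linarith
  have hsvK : s0 / v0 ∈ I := hF.2.1
  have hsvJ : s0 * v0 ∈ J := by
    have e : Dt (cab F₀) = s0 * v0 := by unfold Dt; rw [hs0, hv0]; ring
    rw [← e]; exact hF.2.2
  obtain ⟨β, hβ⟩ := Pool.Agent.Y273.VI.sub_grad_on hk hJ.op hsvJ
  obtain ⟨a, b, hdat, hle, heq⟩ := supp hI hRc hv0p hvs hsvK β
  set γ : ℝ := f (s0 * v0) - c * Real.log (s0 * v0) - β * (s0 * v0) with hγ
  -- the support
  have hle' : ∀ F : ℂ × ℂ, Gd I J F → gf a b F + γ ≤ wv h f F := by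
    intro F hFp
    have hFp1 : ‖F.2‖ < ‖F.1‖ := hFp.1
    rw [gf_sv, wv_sv]
    have hv : 0 < ‖F.1‖ - ‖F.2‖ := by linarith
    have hs : ‖F.1‖ - ‖F.2‖ ≤ ‖F.1‖ + ‖F.2‖ := by linarith [norm_nonneg F.2]
    have h1 := hle _ _ hv hs hFp.2.1
    have e : Dt F = (‖F.1‖ + ‖F.2‖) * (‖F.1‖ - ‖F.2‖) := by unfold Dt; ring
    have h2 := hβ ((‖F.1‖ + ‖F.2‖) * (‖F.1‖ - ‖F.2‖)) (by rw [← e]; exact hFp.2.2)
    rw [hγ]
    linarith
  have heq' : gf a b (cab F₀) + γ = wv h f (cab F₀) := by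
    rw [gf_sv, wv_sv, ← hv0, ← hs0, heq, hγ]
    ring
  -- measurability
  have hP : IsOpen {F : ℂ × ℂ | Gd I J F} := gd_open hI hJ
  have hm : AEStronglyMeasurable (fun x => wv h f (T F₀ (fderiv ℝ ϑ x))) (volume.restrict Ω) := by
    have hc : ContinuousOn (wv h f) {F : ℂ × ℂ | Gd I J F} :=
      cont_wv (cont_h hI hJ hR) (cont_f hI hJ hR)
    classical
    have hm := ContinuousOn.measurable_piecewise hc
      (continuousOn_const (c := (0 : ℝ)) (s := {F : ℂ × ℂ | Gd I J F}ᶜ)) hP.measurableSet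
    have hm2 := (hm.comp (T_meas F₀ ϑ)).aestronglyMeasurable (μ := volume.restrict Ω)
    refine hm2.congr ?_
    filter_upwards [hpos] with x hx
    have hx' : T F₀ (fderiv ℝ ϑ x) ∈ {F : ℂ × ℂ | Gd I J F} := hx
    simp only [Function.comp]
    rw [Set.piecewise_eq_of_mem _ _ _ hx']
  -- the positive part of the support
  have hconst : ∫⁻ _ in Ω, ENNReal.ofReal (-γ) ≠ ⊤ := by
    rw [setLIntegral_const]
    exact ENNReal.mul_ne_top ENNReal.ofReal_ne_top ht.fin.ne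
  have hfin2 : ∫⁻ x in Ω, ENNReal.ofReal (gf a b (T F₀ (fderiv ℝ ϑ x))) ≠ ⊤ := by
    have h1 : ∫⁻ x in Ω, ENNReal.ofReal (gf a b (T F₀ (fderiv ℝ ϑ x)))
        ≤ ∫⁻ x in Ω, (ENNReal.ofReal (wv h f (T F₀ (fderiv ℝ ϑ x))) + ENNReal.ofReal (-γ)) := by
      refine lintegral_mono_ae ?_
      filter_upwards [hpos] with x hx
      refine (ENNReal.ofReal_le_ofReal ?_).trans ENNReal.ofReal_add_le
      have := hle' _ hx
      linarith
    rw [lintegral_add_right _ measurable_const] at h1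
    exact ne_top_of_le_ne_top (ENNReal.add_ne_top.2 ⟨hfin, hconst⟩) h1
  have hpos' : ∀ᵐ x ∂(volume.restrict Ω),
      ‖(T F₀ (fderiv ℝ ϑ x)).2‖ < ‖(T F₀ (fderiv ℝ ϑ x)).1‖ := by
    filter_upwards [hpos] with x hx
    exact hx.1
  obtain ⟨i1, i2⟩ := main_dat hdat ht hFp hpos' hfin2
  have iγ : IntegrableOn (fun _ : Fin 2 → ℝ => γ) Ω := integrableOn_const ht.fin.ne
  have i3 : IntegrableOn (fun x => gf a b (T F₀ (fderiv ℝ ϑ x)) + γ) Ω := i1.add iγ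
  have hWp : Integrable (fun x => max (wv h f (T F₀ (fderiv ℝ ϑ x))) 0) (volume.restrict Ω) := by
    refine ⟨hm.sup aestronglyMeasurable_const, ?_⟩
    have hp0 : 0 ≤ᵐ[volume.restrict Ω] fun x => max (wv h f (T F₀ (fderiv ℝ ϑ x))) 0 :=
      Eventually.of_forall fun x => le_max_right _ _
    rw [hasFiniteIntegral_iff_ofReal hp0]
    have e : ∀ x, ENNReal.ofReal (max (wv h f (T F₀ (fderiv ℝ ϑ x))) 0)
        = ENNReal.ofReal (wv h f (T F₀ (fderiv ℝ ϑ x))) := by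
      intro x
      rcases le_total (wv h f (T F₀ (fderiv ℝ ϑ x))) 0 with h1 | h1
      · rw [max_eq_right h1, ENNReal.ofReal_of_nonpos h1, ENNReal.ofReal_zero]
      · rw [max_eq_left h1]
    simp only [e]
    exact lt_top_iff_ne_top.2 hfin
  have hWi : Integrable (fun x => wv h f (T F₀ (fderiv ℝ ϑ x))) (volume.restrict Ω) := by
    refine Integrable.mono' (hWp.add i3.abs) hm ?_
    filter_upwards [hpos] with x hx
    have h0 := hle' _ hx
    rw [Real.norm_eq_abs, Pi.add_apply]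
    rcases le_total 0 (wv h f (T F₀ (fderiv ℝ ϑ x))) with h1 | h1
    · rw [abs_of_nonneg h1]
      have := le_max_left (wv h f (T F₀ (fderiv ℝ ϑ x))) 0
      have := abs_nonneg (gf a b (T F₀ (fderiv ℝ ϑ x)) + γ)
      linarith
    · rw [abs_of_nonpos h1]
      have := neg_abs_le (gf a b (T F₀ (fderiv ℝ ϑ x)) + γ)
      have := le_max_right (wv h f (T F₀ (fderiv ℝ ϑ x))) 0
      linarith
  refine ⟨hWi, ?_⟩
  have h1 : ∫ x in Ω, (gf a b (T F₀ (fderiv ℝ ϑ x)) + γ)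
      ≤ ∫ x in Ω, wv h f (T F₀ (fderiv ℝ ϑ x)) := by
    refine integral_mono_ae i3 hWi ?_
    filter_upwards [hpos] with x hx
    exact hle' _ hx
  have h2 : ∫ x in Ω, (gf a b (T F₀ (fderiv ℝ ϑ x)) + γ)
      = (∫ x in Ω, gf a b (T F₀ (fderiv ℝ ϑ x))) + (volume Ω).toReal * γ := by
    rw [integral_add i1 iγ, setIntegral_const, smul_eq_mul, Measure.real]
  rw [← heq', add_mul]
  rw [h2] at h1
  linarith

open scoped Matrix.Norms.L2Operator in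
/-- the domain in terms of the matrix -/
def Mdom (I J : Set ℝ) (F : Matrix (Fin 2) (Fin 2) ℝ) : Prop :=
  0 < F.det ∧ ‖F‖ ^ 2 / F.det ∈ I ∧ F.det ∈ J

open scoped Matrix.Norms.L2Operator in
theorem inv_cab (A : Matrix (Fin 2) (Fin 2) ℝ) (hA : 0 < A.det) :
    Rt (cab A) = ‖A‖ ^ 2 / A.det ∧ Dt (cab A) = A.det := by
  obtain ⟨h1, h2⟩ := Pool.Agent.W74.MQ.OPN.main A
  have hc := (det_cab A).1 hA
  rw [h1, h2]
  unfold Rt Dt
  refine ⟨?_, rfl⟩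
  have n2 := norm_nonneg (cab A).2
  have h3 : ‖(cab A).1‖ - ‖(cab A).2‖ ≠ 0 := by linarith
  have h4 : ‖(cab A).1‖ + ‖(cab A).2‖ ≠ 0 := by linarith
  have h5 : ‖(cab A).1‖ ^ 2 - ‖(cab A).2‖ ^ 2
      = (‖(cab A).1‖ + ‖(cab A).2‖) * (‖(cab A).1‖ - ‖(cab A).2‖) := by ring
  rw [h5, sq, mul_div_mul_left _ _ h4]

theorem gd_cab {A : Matrix (Fin 2) (Fin 2) ℝ} : Mdom I J A ↔ Gd I J (cab A) := by
  constructor
  · rintro ⟨h1, h2, h3⟩
    obtain ⟨e1, e2⟩ := inv_cab A h1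
    exact ⟨(det_cab A).1 h1, by rw [e1]; exact h2, by rw [e2]; exact h3⟩
  · rintro ⟨h1, h2, h3⟩
    have h1' : 0 < A.det := (det_cab A).2 h1
    obtain ⟨e1, e2⟩ := inv_cab A h1'
    exact ⟨h1', by rw [← e1]; exact h2, by rw [← e2]; exact h3⟩

/-- rank-one convexity of a function of a matrix on the domain -/
def Rm (I J : Set ℝ) (W : Matrix (Fin 2) (Fin 2) ℝ → ℝ) : Prop :=
  ∀ F H : Matrix (Fin 2) (Fin 2) ℝ, H.rank = 1 → Mdom I J F → Mdom I J (F + H) →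
    ∀ t : ℝ, 0 ≤ t → t ≤ 1 → W ((1 - t) • F + t • (F + H)) ≤ (1 - t) * W F + t * W (F + H)

theorem RC_of (hI : IK I) (hJ : OJ J) {W : Matrix (Fin 2) (Fin 2) ℝ → ℝ} {w : ℂ × ℂ → ℝ}
    (hW : ∀ A, Mdom I J A → W A = w (cab A)) (hR : Rm I J W) : RC I J w := by
  intro F H hH hF hFH t h0 h1
  by_cases hz : H = 0
  · subst hz
    simp only [smul_zero, add_zero]
    linarith
  have d1 : Mdom I J (bac F) := gd_cab.2 (by rw [cab_bac]; exact hF)
  have d2 : Mdom I J (bac (F + H)) := gd_cab.2 (by rw [cab_bac]; exact hFH)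
  have d3 : Mdom I J (bac (F + t • H)) :=
    gd_cab.2 (by rw [cab_bac]; exact gd_seg hI hJ hH hF hFH h0 h1)
  have h := hR (bac F) (bac H) (rank_bac hz hH) d1 (by rw [← bac_add]; exact d2) t h0 h1
  have e1 : (1 - t) • bac F + t • (bac F + bac H) = bac (F + t • H) := by
    rw [bac_add, bac_smul, smul_add, sub_smul, one_smul]
    abel
  rw [e1, ← bac_add, hW _ d1, hW _ d2, hW _ d3, cab_bac, cab_bac, cab_bac] at h
  exact h

end Pool.Agent.U124.VI
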