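import Pool.Agent.U124.VI.Fin
import Pool.Agent.W22.HM.Iso

/-! # Intervals with end points in the extended reals, and isotropic energies -/

set_option autoImplicit false

namespace Pool.Agent.U124.VI

open MeasureTheory Set Filter Topology
open Pool.Agent.R222.VI (Dt Rt Pos Dt_pos Rt_ge)
open Pool.Agent.Y273.VI (det_cab)

/-- the interval of the distortions -/
def Ik (κ : EReal) : Set ℝ := {K : ℝ | 1 ≤ K ∧ (K : EReal) < κ}

/-- the interval of the determinants -/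
def Jk (α β : EReal) : Set ℝ := {z : ℝ | α < (z : EReal) ∧ (z : EReal) < β}

theorem ik_of {κ : EReal} (hκ : 1 < κ) : IK (Ik κ) where
  one := ⟨le_rfl, by simpa using hκ⟩
  ge := fun _ h => h.1
  down := fun K hK K' h1 h2 => ⟨h1, lt_of_le_of_lt (by exact_mod_cast h2) hK.2⟩
  up := fun K hK => by
    obtain ⟨r, h1, h2⟩ := EReal.lt_iff_exists_real_btwn.1 hK.2
    have h3 : K < r := by exact_mod_cast h1
    exact ⟨r, ⟨hK.1.trans h3.le, h2⟩, h3⟩

theorem oj_of {α β : EReal} (hα : 0 ≤ α) (h : α < β) : OJ (Jk α β) where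
  op := by
    have h1 : IsOpen ((fun z : ℝ => (z : EReal)) ⁻¹' Ioi α) :=
      isOpen_Ioi.preimage continuous_coe_real_ereal
    have h2 : IsOpen ((fun z : ℝ => (z : EReal)) ⁻¹' Iio β) :=
      isOpen_Iio.preimage continuous_coe_real_ereal
    exact h1.inter h2
  oc := ⟨fun x hx y hy z hz => ⟨lt_of_lt_of_le hx.1 (by exact_mod_cast hz.1),
    lt_of_le_of_lt (by exact_mod_cast hz.2) hy.2⟩⟩
  pos := fun z hz => by
    have := lt_of_le_of_lt hα hz.1
    exact_mod_cast this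
  ne := by
    obtain ⟨r, h1, h2⟩ := EReal.lt_iff_exists_real_btwn.1 h
    exact ⟨r, h1, h2⟩

open scoped Matrix.Norms.L2Operator

theorem one_le_dist {A : Matrix (Fin 2) (Fin 2) ℝ} (hA : 0 < A.det) : 1 ≤ ‖A‖ ^ 2 / A.det := by
  rw [← (inv_cab A hA).1]
  exact Rt_ge ((det_cab A).1 hA)

theorem mdom_iff {κ α β : EReal} (hα : 0 ≤ α) {A : Matrix (Fin 2) (Fin 2) ℝ} :
    Mdom (Ik κ) (Jk α β) A ↔
      ((‖A‖ ^ 2 / A.det : ℝ) : EReal) < κ ∧ α < (A.det : EReal) ∧ (A.det : EReal) < β := by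
  constructor
  · rintro ⟨_, h2, h3⟩
    exact ⟨h2.2, h3.1, h3.2⟩
  · rintro ⟨h1, h2, h3⟩
    have h0 : 0 < A.det := by
      have := lt_of_le_of_lt hα h2
      exact_mod_cast this
    exact ⟨h0, ⟨one_le_dist h0, h1⟩, h2, h3⟩

/-- the diagonal matrix with given distortion and determinant -/
noncomputable def Dg (K D : ℝ) : Matrix (Fin 2) (Fin 2) ℝ :=
  Matrix.diagonal ![Real.sqrt (D * K), Real.sqrt (D / K)]

theorem Dg_det {K D : ℝ} (hK : 1 ≤ K) (hD : 0 < D) : (Dg K D).det = D := by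
  unfold Dg
  rw [Matrix.det_diagonal, Fin.prod_univ_two]
  have hK0 : 0 < K := by linarith
  simp only [Matrix.cons_val_zero, Matrix.cons_val_one]
  rw [← Real.sqrt_mul (by positivity)]
  have : D * K * (D / K) = D ^ 2 := by field_simp
  rw [this, Real.sqrt_sq hD.le]

theorem Dg_dist {K D : ℝ} (hK : 1 ≤ K) (hD : 0 < D) : ‖Dg K D‖ ^ 2 / (Dg K D).det = K := by
  rw [Dg_det hK hD]
  unfold Dg
  have hK0 : 0 < K := by linarith
  rw [Matrix.l2_opNorm_diagonal]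
  have h1 : Real.sqrt (D / K) ≤ Real.sqrt (D * K) := by
    apply Real.sqrt_le_sqrt
    rw [div_le_iff₀ hK0]
    nlinarith [mul_pos hD hK0, mul_le_mul hK hK zero_le_one (by linarith : (0 : ℝ) ≤ K)]
  have h2 : ‖(![Real.sqrt (D * K), Real.sqrt (D / K)] : Fin 2 → ℝ)‖ = Real.sqrt (D * K) := by
    apply le_antisymm
    · rw [pi_norm_le_iff_of_nonneg (Real.sqrt_nonneg _)]
      intro i
      fin_cases i
      · simp [abs_of_nonneg (Real.sqrt_nonneg _)]
      · simpa [abs_of_nonneg (Real.sqrt_nonneg _)] using h1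
    · have := norm_le_pi_norm (![Real.sqrt (D * K), Real.sqrt (D / K)] : Fin 2 → ℝ) 0
      simpa [abs_of_nonneg (Real.sqrt_nonneg _)] using this
  rw [h2, Real.sq_sqrt (by positivity)]
  field_simp

theorem Dg_smul {K D0 D : ℝ} (hD0 : 0 < D0) (hD : 0 < D) :
    Real.sqrt (D / D0) • Dg K D0 = Dg K D := by
  unfold Dg
  rw [← Matrix.diagonal_smul]
  congr 1
  ext i
  have hd : (0 : ℝ) ≤ D / D0 := by positivity
  fin_cases i
  · change Real.sqrt (D / D0) * Real.sqrt (D0 * K) = Real.sqrt (D * K)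
    rw [← Real.sqrt_mul hd]
    congr 1
    field_simp
  · change Real.sqrt (D / D0) * Real.sqrt (D0 / K) = Real.sqrt (D / K)
    rw [← Real.sqrt_mul hd]
    congr 1
    field_simp

/-- the normal form under rotations from both sides -/
theorem normal {A : Matrix (Fin 2) (Fin 2) ℝ} (hA : 0 < A.det) :
    ∃ R ∈ Matrix.specialOrthogonalGroup (Fin 2) ℝ, ∃ Q ∈ Matrix.specialOrthogonalGroup (Fin 2) ℝ,
      R * A * Q = Dg (‖A‖ ^ 2 / A.det) A.det := by
  obtain ⟨a, b, hab⟩ := Pool.Agent.W22.HM.normal_form A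
  obtain ⟨h1, h2⟩ := Pool.Agent.W74.MQ.OPN.main A
  have hdr : ∀ a : ℝ, (Pool.Agent.W22.HM.rot a).det = 1 := fun a =>
    (Matrix.mem_specialOrthogonalGroup_iff.1 (Pool.Agent.W22.HM.rot_mem a)).2
  obtain ⟨s, hs⟩ : ∃ s, s = ‖(Pool.Agent.W360.MQ.cab A).1‖ + ‖(Pool.Agent.W360.MQ.cab A).2‖ :=
    ⟨_, rfl⟩
  obtain ⟨v, hv⟩ : ∃ v, v = ‖(Pool.Agent.W360.MQ.cab A).1‖ - ‖(Pool.Agent.W360.MQ.cab A).2‖ :=
    ⟨_, rfl⟩
  rw [← hs, ← hv] at hab
  have hdet : A.det = s * v := by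
    have h3 := congrArg Matrix.det hab
    rw [Matrix.det_mul, Matrix.det_mul, hdr, hdr, one_mul, mul_one, Matrix.det_fin_two_of] at h3
    rw [h3]; ring
  have hs0 : 0 ≤ s := by rw [hs]; positivity
  have hsp : 0 < s := by
    rcases hs0.eq_or_lt with h | h
    · rw [hdet, ← h, zero_mul] at hA; exact absurd hA (lt_irrefl _)
    · exact h
  have hvp : 0 < v := by
    rw [hdet] at hA
    exact (pos_iff_pos_of_mul_pos hA).1 hsp
  have hn : ‖A‖ = s := by rw [hs]; exact h1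
  refine ⟨_, Pool.Agent.W22.HM.rot_mem a, _, Pool.Agent.W22.HM.rot_mem b, ?_⟩
  rw [hab]
  unfold Dg
  have e1 : A.det * (‖A‖ ^ 2 / A.det) = s ^ 2 := by rw [hn]; field_simp
  have e2 : A.det / (‖A‖ ^ 2 / A.det) = v ^ 2 := by
    rw [hn, hdet]; field_simp
  rw [e1, e2, Real.sqrt_sq hsp.le, Real.sqrt_sq hvp.le]
  ext i j
  fin_cases i <;> fin_cases j <;> simp

end Pool.Agent.U124.VI
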