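import Pool.Agent.U124.VI.Dic
import Pool.Agent.R222.VI.Sup

/-! # Supports of the energies with a logarithmic volumetric part -/

set_option autoImplicit false

namespace Pool.Agent.U124.VI

open MeasureTheory Set Filter Topology
open Pool.Agent.R222.VI (Dt Rt wv Pos Dt_pos Rt_ge Dt_smul Rt_smul Pos_smul Dt_line
  diag_val datV datN log_sv)
open Pool.Agent.Y273.VI (Dat sub_grad_on deriv_nonneg')

variable {h : ℝ → ℝ} {c : ℝ} {I : Set ℝ}

theorem subg (hI : IK I) {u : ℝ → ℝ} (hu : ConvexOn ℝ I u) {K0 : ℝ} (hK0 : K0 ∈ I) (hK : 1 < K0) :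
    ∃ a, ∀ K ∈ I, u K0 + a * (K - K0) ≤ u K := by
  have hsub : I ∩ Ioi 1 ⊆ I := inter_subset_left
  have hop : IsOpen (I ∩ Ioi 1) := by
    rw [isOpen_iff_mem_nhds]
    rintro x ⟨hx, hx1⟩
    obtain ⟨y, hy, hxy⟩ := hI.up x hx
    filter_upwards [Ioo_mem_nhds (mem_Ioi.1 hx1) hxy] with t ht
    exact ⟨hI.down y hy t ht.1.le ht.2.le, ht.1⟩
  obtain ⟨a, ha⟩ := sub_grad_on (hu.subset hsub (hI.conv.inter (convex_Ioi 1))) hop
    (⟨hK0, hK⟩ : K0 ∈ I ∩ Ioi 1)
  refine ⟨a, fun K hKI => ?_⟩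
  rcases eq_or_lt_of_le (hI.ge K hKI) with h1 | h1
  · subst h1
    have h2 := ha ((1 + K0) / 2) ⟨hI.down K0 hK0 _ (by linarith) (by linarith),
      mem_Ioi.2 (by linarith)⟩
    have h3 := hu.2 hI.one hK0
      (show (0 : ℝ) ≤ 1 / 2 by norm_num) (show (0 : ℝ) ≤ 1 / 2 by norm_num) (by norm_num)
    have e : (1 / 2 : ℝ) • (1 : ℝ) + (1 / 2 : ℝ) • K0 = (1 + K0) / 2 := by
      simp only [smul_eq_mul]; ring
    rw [e] at h3
    simp only [smul_eq_mul] at h3
    linarith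
  · exact ha K ⟨hKI, mem_Ioi.2 h1⟩

theorem slope_one (hI : IK I) (hR : RC I (Ioi 0) (wv h (fun z => c * Real.log z))) (hc : 0 ≤ c)
    {K : ℝ} (hKI : K ∈ I) : h 1 + c * (K - 1) ≤ h K + c * Real.log K := by
  have hu := u_conv' hI hR
  have hm := mono_h hI oj_univ hR
  have hK : 1 ≤ K := hI.ge K hKI
  set d := h K + c * Real.log K - h 1 with hd
  have key : ∀ ε : ℝ, 0 < ε → ε ≤ 1 → c * (K - 1) ≤ d * (1 + ε * (K - 1)) := by
    intro ε hε hε1
    have hx : 0 < 1 + ε * (K - 1) := by nlinarith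
    have h1 := hu.2 hI.one hKI
      (show 0 ≤ 1 - ε by linarith) hε.le (by ring)
    have e : (1 - ε) • (1 : ℝ) + ε • K = 1 + ε * (K - 1) := by
      simp only [smul_eq_mul]; ring
    rw [e] at h1
    simp only [smul_eq_mul, Real.log_one, mul_zero, add_zero] at h1
    have h2 : h 1 ≤ h (1 + ε * (K - 1)) := hm hI.one
      (hI.down K hKI _ (by nlinarith) (by nlinarith)) (by nlinarith)
    have h3 := Real.one_sub_inv_le_log_of_pos hx
    have h4 : c * (1 - (1 + ε * (K - 1))⁻¹) ≤ ε * d := by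
      have := mul_le_mul_of_nonneg_left h3 hc
      rw [hd]
      nlinarith
    have h5 : 1 - (1 + ε * (K - 1))⁻¹ = ε * (K - 1) / (1 + ε * (K - 1)) := by
      field_simp
      ring
    rw [h5] at h4
    have h6 : c * (ε * (K - 1) / (1 + ε * (K - 1))) * (1 + ε * (K - 1))
        ≤ ε * d * (1 + ε * (K - 1)) := mul_le_mul_of_nonneg_right h4 hx.le
    have h7 : c * (ε * (K - 1) / (1 + ε * (K - 1))) * (1 + ε * (K - 1)) = ε * (c * (K - 1)) := by
      field_simp
    rw [h7, mul_assoc] at h6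
    exact le_of_mul_le_mul_left h6 hε
  have hlim : Tendsto (fun ε : ℝ => d * (1 + ε * (K - 1))) (𝓝[>] 0) (𝓝 d) := by
    have h1 : Continuous (fun ε : ℝ => d * (1 + ε * (K - 1))) := by fun_prop
    have h2 := h1.tendsto 0
    simp only [zero_mul, add_zero, mul_one] at h2
    exact h2.mono_left nhdsWithin_le_nhds
  have hfin : c * (K - 1) ≤ d := by
    refine ge_of_tendsto hlim ?_
    filter_upwards [Ioc_mem_nhdsGT (one_pos)] with ε hε
    exact key ε hε.1 hε.2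
  rw [hd] at hfin
  linarith

theorem sub_ge (hI : IK I) (hR : RC I (Ioi 0) (wv h (fun z => c * Real.log z))) (hc : 0 ≤ c)
    {K0 : ℝ} (hKI : K0 ∈ I) :
    ∃ a, c ≤ a ∧ ∀ K ∈ I, h K0 + c * Real.log K0 + a * (K - K0) ≤ h K + c * Real.log K := by
  rcases eq_or_lt_of_le (hI.ge K0 hKI) with h1 | h1
  · subst h1
    refine ⟨c, le_rfl, fun K hK => ?_⟩
    have := slope_one hI hR hc hK
    rw [Real.log_one]
    linarith
  · obtain ⟨a, ha⟩ := subg hI (u_conv' hI hR) hKI h1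
    refine ⟨a, ?_, ha⟩
    have h2 := ha 1 hI.one
    have h3 := slope_one hI hR hc hKI
    simp only [Real.log_one] at h2
    by_contra hcon
    push Not at hcon
    nlinarith

theorem sub_neg (hI : IK I) (hR : RC I (Ioi 0) (wv h (fun z => c * Real.log z))) (hc : c < 0)
    {K0 a : ℝ} (hKI : K0 ∈ I) (hK : 1 < K0)
    (ha : ∀ K ∈ I, h K0 + c * Real.log K0 + a * (K - K0) ≤ h K + c * Real.log K) :
    0 ≤ a * K0 - c := by
  have hm := mono_h hI oj_univ hR
  have key : ∀ K, 1 ≤ K → K < K0 → 0 ≤ a * K - c := by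
    intro K hK1 hK2
    have hKI' : K ∈ I := hI.down K0 hKI K hK1 hK2.le
    have h1 := ha K hKI'
    have h2 : h K ≤ h K0 := hm hKI' hKI hK2.le
    have hK0 : 0 < K := by linarith
    have h3 := Real.log_le_sub_one_of_pos (x := K0 / K) (by positivity)
    rw [Real.log_div (by positivity) hK0.ne'] at h3
    have h4 : -c * (Real.log K0 - Real.log K) ≤ -c * (K0 / K - 1) :=
      mul_le_mul_of_nonneg_left h3 (by linarith)
    have h5 : a * (K - K0) ≤ -c * (K0 / K - 1) := by linarith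
    have h6 : K0 / K - 1 = (K0 - K) / K := by field_simp
    rw [h6, mul_div_assoc', le_div_iff₀ hK0] at h5
    by_contra hcon
    push Not at hcon
    nlinarith
  have hlim : Tendsto (fun K : ℝ => a * K - c) (𝓝[<] K0) (𝓝 (a * K0 - c)) := by
    have h1 : Continuous (fun K : ℝ => a * K - c) := by fun_prop
    exact (h1.tendsto K0).mono_left nhdsWithin_le_nhds
  refine ge_of_tendsto hlim ?_
  filter_upwards [Ico_mem_nhdsLT hK] with K hK'
  exact key K hK'.1 hK'.2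

/-- what a support is -/
def Supp (I : Set ℝ) (h : ℝ → ℝ) (c β s0 v0 : ℝ) : Prop :=
  ∃ a b : ℝ → ℝ, (∀ ρ, 0 < ρ → ∃ A B, Dat a b ρ A B) ∧
    (∀ s v, 0 < v → v ≤ s → s / v ∈ I →
      a v * s + b v ≤ h (s / v) + c * Real.log (s * v) + β * (s * v)) ∧
    a v0 * s0 + b v0 = h (s0 / v0) + c * Real.log (s0 * v0) + β * (s0 * v0)

theorem suppV {a s0 v0 : ℝ} (β : ℝ) (hv0 : 0 < v0) (hs0 : v0 ≤ s0) (hac : |c| ≤ a)
    (ha : ∀ K ∈ I, h (s0 / v0) + c * Real.log (s0 / v0) + a * (K - s0 / v0)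
      ≤ h K + c * Real.log K) : Supp I h c β s0 v0 := by
  refine ⟨_, _, fun ρ hρ => ⟨_, _, datV hac β
    (h (s0 / v0) + c * Real.log (s0 / v0) - a * (s0 / v0)) hρ⟩, ?_, ?_⟩
  · intro s v hv hs hsv
    have h1 := ha (s / v) hsv
    rw [log_sv hv hs]
    have e : (a / v + β * v) * s = a * (s / v) + β * (s * v) := by ring
    rw [e]
    linarith
  · rw [log_sv hv0 hs0]
    ring

theorem suppN {A C D s0 v0 : ℝ} (β : ℝ) (hA : 0 ≤ A)
    (h1 : ∀ s v, 0 < v → v ≤ s → s / v ∈ I →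
      A * (s - v) + C * (s * v) + D ≤ h (s / v) + c * Real.log (s * v))
    (h2 : A * (s0 - v0) + C * (s0 * v0) + D = h (s0 / v0) + c * Real.log (s0 * v0)) :
    Supp I h c β s0 v0 := by
  refine ⟨_, _, fun ρ hρ => ⟨_, _, datN hA (C + β) D hρ⟩, ?_, ?_⟩
  · intro s v hv hs hsv
    have := h1 s v hv hs hsv
    linarith
  · linarith

end Pool.Agent.U124.VI
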